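import Pool.Agent.Lib.H69.Gauss.Scalar

/-!
# MP_5a30bb_gt: a pinching theorem with constants independent of the dimension

`result`: let `R` be an algebraic curvature tensor on `ℝ^(2 n)` whose curvature operator is bounded
below by `-(h ∘ h + ∑ A_α ∘ A_α) / 2` (Kulkarni–Nomizu squares, `h` positive definite, `A_α`
symmetric and small with respect to `h`) and whose sectional curvatures are close to those of this
reference tensor.  Then the Gauss–Bonnet–Chern integrand of `R` has sign `(-1) ^ n`, with an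
explicit lower bound; the constants do not depend on `n`.

`pinching`: the special case of curvature operator `≥ -k` and sectional curvatures
`≤ -(31/32) k`.
-/

namespace Pool.Agent.Results.MP_5a30bb_gt.DimensionFreePinching

open Pool.Agent.H69Hopf

theorem result (n : ℕ) (hn : 1 ≤ n) (h : Matrix (Fin (2 * n)) (Fin (2 * n)) ℝ) (hh : h.PosDef)
    (p : ℕ) (A : Fin p → Matrix (Fin (2 * n)) (Fin (2 * n)) ℝ) (hA : ∀ α, (A α).IsSymm)
    (R : Arr (2 * n)) (hR : IsAlgCurv R) (a b : ℝ) (ha : 0 ≤ a) (hb : 0 ≤ b)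
    (hab : a + b < 1 / 12 ∨ (a = 0 ∧ b ^ 2 ≤ 1 / 32))
    (hsmall : ∀ x : Fin (2 * n) → ℝ, ∑ α, bilin (A α) x x ^ 2 ≤ a ^ 2 * bilin h x x ^ 2)
    (hop : ∀ X : Fin (2 * n) → Fin (2 * n) → ℝ, (∀ i j, X i j = - X j i) →
      -(opForm (kn h) X + ∑ α, opForm (kn (A α)) X) ≤ opForm R X)
    (hsec : ∀ x y : Fin (2 * n) → ℝ, ev R x y x y ≤
      -((1 - b ^ 2) * ev (kn h) x y x y + ∑ α, ev (kn (A α)) x y x y)) :
    0 < (-1) ^ n * gaussBonnet n R ∧
    (1 / 2) * (4 / 9) ^ n * (2 ^ n * (Nat.factorial (2 * n) : ℝ) * h.det) ≤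
      (-1) ^ n * gaussBonnet n R := by
  have key := H69Gauss.dimension_free hn hh (A := A) (fun α => hA α) hR ha hb
    (hab.imp_right fun hh => ⟨hh.1, by linarith [hh.2]⟩) hsmall hop
    (fun x y => by
      have := hsec x y
      linarith)
  have hdet := hh.det_pos
  have key2 : (1 / 2) * (4 / 9) ^ n * (2 ^ n * (Nat.factorial (2 * n) : ℝ) * h.det) ≤
      (-1) ^ n * gaussBonnet n R := by
    refine le_trans (le_of_eq ?_) key
    ring
  have hpos : 0 < (1 / 2 : ℝ) * (4 / 9) ^ n * (2 ^ n * (Nat.factorial (2 * n) : ℝ) * h.det) := by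
    have : (0 : ℝ) < Nat.factorial (2 * n) := by exact_mod_cast Nat.factorial_pos _
    positivity
  exact ⟨lt_of_lt_of_le hpos key2, key2⟩

/-- Special case `h = √k • 1`, `p = 0`: curvature operator `≥ -k` and sectional curvatures
`≤ -(31/32) k` imply `(-1) ^ n * gaussBonnet n R > 0`, for every `n ≥ 1`.  (The curvature operator
of the unit sphere has `opForm X = 2 * ∑ i j, X i j ^ 2` for skew `X`.) -/
theorem pinching (n : ℕ) (hn : 1 ≤ n) (R : Arr (2 * n)) (hR : IsAlgCurv R) (k : ℝ) (hk : 0 < k)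
    (hop : ∀ X : Fin (2 * n) → Fin (2 * n) → ℝ, (∀ i j, X i j = - X j i) →
      -k * (2 * ∑ i, ∑ j, X i j ^ 2) ≤ opForm R X)
    (hsec : ∀ x y : Fin (2 * n) → ℝ, ev R x y x y ≤ -(31 / 32) * k * area2 x y) :
    0 < (-1) ^ n * gaussBonnet n R := by
  have hs : 0 < √k := Real.sqrt_pos.2 hk
  have hss : √k ^ 2 = k := Real.sq_sqrt hk.le
  refine (result n hn (√k • 1) (Matrix.PosDef.one.smul hs) 0 (fun i => i.elim0)
    (fun i => i.elim0) R hR 0 (√(1 / 32)) le_rfl (Real.sqrt_nonneg _)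
    (Or.inr ⟨rfl, le_of_eq (Real.sq_sqrt (by norm_num))⟩)
    (fun x => by simp) (fun X hX => ?_) (fun x y => ?_)).1
  · rw [H69Gauss.opForm_kn_smul_one _ X hX, hss]
    simp only [Finset.univ_eq_empty, Finset.sum_empty, add_zero]
    have := hop X hX
    linarith
  · rw [H69Gauss.ev_kn_smul_one, hss, Real.sq_sqrt (by norm_num)]
    simp only [Finset.univ_eq_empty, Finset.sum_empty, add_zero]
    have := hsec x y
    linarith

end Pool.Agent.Results.MP_5a30bb_gt.DimensionFreePinching
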