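import Pool.Agent.Lib.H69.Hopf.Strict

/-!
# MP_5a30bb_gt: pinched algebraic curvature tensors in all even dimensions

For every `n ≥ 3`, an algebraic curvature tensor on `ℝ^(2 n)` with sectional curvatures in
`[-b, -a]`, where `b > 0` and `a ≥ δ b`, `δ = (4 n ^ 2 - 27) / (4 n ^ 2 + 12 n - 27)`, has
Gauss–Bonnet–Chern integrand of sign `(-1) ^ n` (strictly); the same with curvatures in `[a, b]`
and sign `+1`.  For `n = 3` the constant is `1 / 5`.
-/

namespace Pool.Agent.Results.MP_5a30bb_gt.PinchingAllDimensions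

open Pool.Agent.H69Hopf

theorem result (n : ℕ) (hn : 3 ≤ n) (R : Arr (2 * n)) (hR : IsAlgCurv R) (a b : ℝ) (hb : 0 < b)
    (hab : (4 * (n : ℝ) ^ 2 - 27) / (4 * (n : ℝ) ^ 2 + 12 * n - 27) * b ≤ a) :
    ((∀ x y : Fin (2 * n) → ℝ,
        -b * area2 x y ≤ ev R x y x y ∧ ev R x y x y ≤ -a * area2 x y) →
      0 < (-1) ^ n * gaussBonnet n R) ∧
    ((∀ x y : Fin (2 * n) → ℝ,
        a * area2 x y ≤ ev R x y x y ∧ ev R x y x y ≤ b * area2 x y) →
      0 < gaussBonnet n R) := by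
  have hn2 : (3 : ℝ) ≤ n := by exact_mod_cast hn
  have hD : 4 * (n : ℝ) ^ 2 + 12 * n - 27 ≠ 0 := by nlinarith
  have hD' : (n : ℝ) ^ 2 + 3 * n - 27 / 4 ≠ 0 := by nlinarith
  have he : dlc (27 / 4) n = (4 * (n : ℝ) ^ 2 - 27) / (4 * (n : ℝ) ^ 2 + 12 * n - 27) := by
    unfold dlc
    rw [eq_div_iff hD, sub_mul, one_mul]
    have h4 : 4 * (n : ℝ) ^ 2 + 12 * n - 27 = 4 * ((n : ℝ) ^ 2 + 3 * n - 27 / 4) := by ring
    rw [h4, mul_comm (4 : ℝ), ← mul_assoc, div_mul_cancel₀ _ hD']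
    ring
  rw [← he] at hab
  have hS := pinch_strict n hn
  constructor
  · intro hp
    rw [← gb_neg]
    refine hS _ (algCurv_neg hR) b hb fun x y => ?_
    rw [ev_neg]
    obtain ⟨h1, h2⟩ := hp x y
    have h3 := mul_le_mul_of_nonneg_right hab (area2_nonneg x y)
    constructor <;> linarith
  · intro hp
    refine hS R hR b hb fun x y => ?_
    obtain ⟨h1, h2⟩ := hp x y
    have h3 := mul_le_mul_of_nonneg_right hab (area2_nonneg x y)
    constructor <;> linarith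

end Pool.Agent.Results.MP_5a30bb_gt.PinchingAllDimensions
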